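import Mathlib
import Pool.Agent.Y996.QH.Stm

/-!
Half-circles around a real point: the energy bound (project QH, S_EN1).
-/

set_option autoImplicit false

namespace Pool.Agent.Y674.QH

open MeasureTheory Set
open Pool.Agent.Y996.RD Pool.Agent.Y996.QH

open scoped ENNReal

/-- the density of the energy in the half-plane -/
noncomputable def dH (u : ℂ → ℝ) : ℂ → ℝ≥0∞ :=
  {z : ℂ | 0 < z.im}.indicator (fun z => ENNReal.ofReal (‖fderiv ℝ u z‖ ^ 2))

theorem hH_meas : MeasurableSet {z : ℂ | 0 < z.im} :=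
  measurableSet_lt measurable_const Complex.measurable_im

theorem dH_meas {u : ℂ → ℝ} (hu : ContDiff ℝ 1 u) : Measurable (dH u) :=
  (((dens_cont hu).pow 2).measurable.ennreal_ofReal).indicator hH_meas

theorem enH_apply (u : ℂ → ℝ) {M : Set ℂ} (hM : MeasurableSet M) :
    enH u M = ∫⁻ z in M, dH u z := by
  unfold enH dH
  rw [withDensity_apply _ hM, Measure.restrict_restrict hM, setLIntegral_indicator hH_meas,
    inter_comm]

theorem dH_pos {u : ℂ → ℝ} {z : ℂ} (h : 0 < z.im) :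
    dH u z = ENNReal.ofReal (‖fderiv ℝ u z‖ ^ 2) := by
  unfold dH
  exact Set.indicator_of_mem (show z ∈ {z : ℂ | 0 < z.im} from h) _

theorem pc_im (z0 : ℂ) (r θ : ℝ) : (pc z0 r θ).im = z0.im + r * Real.sin θ := by
  unfold pc
  simp only [Complex.add_im, Complex.mul_im, Complex.ofReal_re, Complex.ofReal_im, Complex.I_re,
    Complex.I_im, Complex.add_re, Complex.mul_re]
  ring

/-- the energy in a half-annulus in polar coordinates -/
theorem polar_enH {u : ℂ → ℝ} (hu : ContDiff ℝ 1 u) (hfin : enH u univ ≠ ⊤) (a : ℝ) {s t : ℝ}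
    (hs : 0 ≤ s) (hst : s ≤ t) :
    (∫ r in s..t, ∫ θ in (0:ℝ)..Real.pi, r * ‖fderiv ℝ u (pc (a : ℂ) r θ)‖ ^ 2) ≤
      (enH u).real {z | s < dist z (a : ℂ) ∧ dist z (a : ℂ) ≤ t} := by
  have hd := dens_cont hu
  have hAm := ann_meas (a : ℂ) s t
  have hlt : enH u {z | s < dist z (a : ℂ) ∧ dist z (a : ℂ) ≤ t} ≠ ⊤ :=
    ne_top_of_le_ne_top hfin (measure_mono (subset_univ _))
  rw [measureReal_def]
  have hF : Continuous (fun p : ℝ × ℝ => p.1 * ‖fderiv ℝ u (pc (a : ℂ) p.1 p.2)‖ ^ 2) :=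
    continuous_fst.mul ((hd.comp (pc_cont (a : ℂ))).pow 2)
  refine (ENNReal.ofReal_le_iff_le_toReal hlt).mp ?_
  rw [ofReal_dbl (F := fun r θ => r * ‖fderiv ℝ u (pc (a : ℂ) r θ)‖ ^ 2) hF hst
    Real.pi_pos.le (fun x hx y _ => mul_nonneg (hs.trans hx.1.le) (sq_nonneg _)),
    enH_apply u hAm]
  refine le_trans ?_ (polar_lint (dH u) (dH_meas hu) (a : ℂ) hs)
  refine setLIntegral_mono' measurableSet_Ioc fun r hr => ?_
  have hr0 : 0 < r := hs.trans_lt hr.1
  rw [← restrict_Ioo_eq_restrict_Ioc]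
  calc ∫⁻ θ in Ioo 0 Real.pi, ENNReal.ofReal (r * ‖fderiv ℝ u (pc (a : ℂ) r θ)‖ ^ 2)
      = ∫⁻ θ in Ioo 0 Real.pi, ENNReal.ofReal r * dH u (pc (a : ℂ) r θ) := by
        apply setLIntegral_congr_fun measurableSet_Ioo
        intro θ hθ
        simp only
        rw [ENNReal.ofReal_mul hr0.le, dH_pos]
        rw [pc_im, Complex.ofReal_im, zero_add]
        exact mul_pos hr0 (Real.sin_pos_of_pos_of_lt_pi hθ.1 hθ.2)
    _ ≤ ∫⁻ θ in Ioc (-Real.pi) Real.pi, ENNReal.ofReal r * dH u (pc (a : ℂ) r θ) := by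
        apply lintegral_mono_set
        intro θ hθ
        exact ⟨by linarith [hθ.1, Real.pi_pos], hθ.2.le⟩

/-- the energy of a half-circle -/
noncomputable def hce (u : ℂ → ℝ) (a r : ℝ) : ℝ :=
  ∫ θ in (0:ℝ)..Real.pi, ‖fderiv ℝ u (pc (a : ℂ) r θ)‖ ^ 2

theorem half_surj (a : ℝ) (z : ℂ) (hz : 0 ≤ z.im) :
    ∃ θ ∈ Icc 0 Real.pi, pc (a : ℂ) (dist z (a : ℂ)) θ = z := by
  refine ⟨Complex.arg (z - a), ⟨?_, Complex.arg_le_pi _⟩, ?_⟩
  · rw [Complex.arg_nonneg_iff, Complex.sub_im, Complex.ofReal_im, sub_zero]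
    exact hz
  · unfold pc
    rw [dist_eq_norm]
    have := Complex.norm_mul_cos_add_sin_mul_I (z - a)
    push_cast
    rw [this]
    ring

theorem half_osc {u : ℂ → ℝ} (hu : ContDiff ℝ 1 u) (a : ℝ) {r : ℝ} (hr : 0 ≤ r) {z : ℂ}
    (hz : dist z (a : ℂ) = r) (him : 0 ≤ z.im) :
    (cmH u a r - u z) ^ 2 ≤ Real.pi * r ^ 2 * hce u a r := by
  have hpi := Real.pi_pos
  obtain ⟨α, hα, hzα⟩ := half_surj a z him
  rw [hz] at hzα
  obtain ⟨z0, hz0⟩ : ∃ z0 : ℂ, z0 = (a : ℂ) := ⟨_, rfl⟩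
  have hd := dens_cont hu
  have hcθ : Continuous (fun θ => pc (a : ℂ) r θ) :=
    (pc_cont (a : ℂ)).comp (Continuous.prodMk_right r)
  have hdf : Differentiable ℝ u := hu.differentiable one_ne_zero
  have hder : ∀ θ, HasDerivAt (fun t => u (pc (a : ℂ) r t))
      (fderiv ℝ u (pc (a : ℂ) r θ) (r * (-Real.sin θ + Real.cos θ * Complex.I))) θ := fun θ =>
    (hdf (pc (a : ℂ) r θ)).hasFDerivAt.comp_hasDerivAt θ (pc_deriv_θ (a : ℂ) r θ)
  have hder_c : Continuous (fun θ : ℝ =>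
      fderiv ℝ u (pc (a : ℂ) r θ) (r * (-Real.sin θ + Real.cos θ * Complex.I))) := by
    apply Continuous.clm_apply
    · exact (hu.continuous_fderiv one_ne_zero).comp hcθ
    · fun_prop
  have hBc : Continuous (fun θ => r * ‖fderiv ℝ u (pc (a : ℂ) r θ)‖) :=
    continuous_const.mul (hd.comp hcθ)
  have hosc : ∀ β ∈ Icc 0 Real.pi, |u (pc (a : ℂ) r β) - u (pc (a : ℂ) r α)| ≤
      ∫ θ in (0:ℝ)..Real.pi, r * ‖fderiv ℝ u (pc (a : ℂ) r θ)‖ := by
    intro β hβ
    refine osc_1 hder hder_c ?_ hBc hα hβ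
    intro θ
    rw [← Real.norm_eq_abs]
    refine (ContinuousLinearMap.le_opNorm _ _).trans ?_
    rw [norm_sc, abs_of_nonneg hr, mul_comm]
  obtain ⟨D, hD⟩ : ∃ D, D = ∫ θ in (0:ℝ)..Real.pi, r * ‖fderiv ℝ u (pc (a : ℂ) r θ)‖ := ⟨_, rfl⟩
  rw [← hD] at hosc
  have hcu : Continuous (fun θ => u (pc (a : ℂ) r θ)) := hu.continuous.comp hcθ
  have h1 : |cmH u a r - u z| ≤ D := by
    have e : cmH u a r - u z =
        (∫ θ in (0:ℝ)..Real.pi, (u (pc (a : ℂ) r θ) - u (pc (a : ℂ) r α))) / Real.pi := by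
      rw [intervalIntegral.integral_sub (hcu.intervalIntegrable _ _)
        (continuous_const.intervalIntegrable _ _), intervalIntegral.integral_const, hzα]
      unfold cmH
      rw [smul_eq_mul]
      field_simp
      ring
    rw [e, abs_div, abs_of_pos hpi, div_le_iff₀ hpi]
    have := intervalIntegral.norm_integral_le_of_norm_le_const (a := 0) (b := Real.pi)
      (f := fun θ => u (pc (a : ℂ) r θ) - u (pc (a : ℂ) r α)) (C := D) (by
        intro x hx
        rw [Real.norm_eq_abs]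
        apply hosc
        rw [uIoc_of_le hpi.le] at hx
        exact Ioc_subset_Icc_self hx)
    rw [Real.norm_eq_abs] at this
    refine this.trans (le_of_eq ?_)
    rw [sub_zero, abs_of_nonneg hpi.le]
  have h2 : D ^ 2 ≤ Real.pi * (r ^ 2 * hce u a r) := by
    have := cs_1 (a := 0) (b := Real.pi) hpi.le hBc.continuousOn
    rw [← hD] at this
    refine this.trans (le_of_eq ?_)
    have e : ∫ θ in (0:ℝ)..Real.pi, (r * ‖fderiv ℝ u (pc (a : ℂ) r θ)‖) ^ 2 =
        r ^ 2 * hce u a r := by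
      unfold hce
      rw [← intervalIntegral.integral_const_mul]
      congr 1
      ext θ
      ring
    rw [e, sub_zero]
  calc (cmH u a r - u z) ^ 2 = |cmH u a r - u z| ^ 2 := (sq_abs _).symm
    _ ≤ D ^ 2 := pow_le_pow_left₀ (abs_nonneg _) h1 2
    _ ≤ _ := by rw [← mul_assoc] at h2; exact h2

theorem half_radial {u : ℂ → ℝ} (hu : ContDiff ℝ 1 u) (hfin : enH u univ ≠ ⊤) (a : ℝ) {s t : ℝ}
    (hs : 0 < s) (hst : s ≤ t) :
    (cmH u a t - cmH u a s) ^ 2 ≤ Real.log (t / s) / Real.pi *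
      (enH u).real {z | s < dist z (a : ℂ) ∧ dist z (a : ℂ) ≤ t} := by
  have hpi := Real.pi_pos
  have hd := dens_cont hu
  have hdf : Differentiable ℝ u := hu.differentiable one_ne_zero
  have hen := polar_enH hu hfin a hs.le hst
  obtain ⟨E, hE⟩ : ∃ E, E = (enH u).real {z | s < dist z (a : ℂ) ∧ dist z (a : ℂ) ≤ t} := ⟨_, rfl⟩
  rw [← hE] at hen ⊢
  have hFc : Continuous (fun p : ℝ × ℝ => p.1 * ‖fderiv ℝ u (pc (a : ℂ) p.1 p.2)‖ ^ 2) :=
    continuous_fst.mul ((hd.comp (pc_cont (a : ℂ))).pow 2)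
  rw [dbl_swap (F := fun r θ => r * ‖fderiv ℝ u (pc (a : ℂ) r θ)‖ ^ 2) hFc hst hpi.le] at hen
  -- the radial bound for each angle
  have hL : ∫ x in s..t, x⁻¹ = Real.log (t / s) := by
    rw [integral_inv_of_pos hs (hs.trans_le hst)]
  have hcr : ∀ θ, Continuous (fun r => pc (a : ℂ) r θ) := fun θ =>
    (pc_cont (a : ℂ)).comp (Continuous.prodMk_left θ)
  have hrad : ∀ θ, (u (pc (a : ℂ) t θ) - u (pc (a : ℂ) s θ)) ^ 2 ≤ Real.log (t / s) *
      ∫ r in s..t, r * ‖fderiv ℝ u (pc (a : ℂ) r θ)‖ ^ 2 := by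
    intro θ
    have h1 : |u (pc (a : ℂ) t θ) - u (pc (a : ℂ) s θ)| ≤
        ∫ r in s..t, ‖fderiv ℝ u (pc (a : ℂ) r θ)‖ := by
      refine osc_1 (v := fun r => u (pc (a : ℂ) r θ))
        (v' := fun r => fderiv ℝ u (pc (a : ℂ) r θ) (Real.cos θ + Real.sin θ * Complex.I))
        (fun r => (hdf (pc (a : ℂ) r θ)).hasFDerivAt.comp_hasDerivAt r (pc_deriv_r (a : ℂ) r θ))
        (Continuous.clm_apply ((hu.continuous_fderiv one_ne_zero).comp (hcr θ)) continuous_const)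
        ?_ (hd.comp (hcr θ)) ⟨le_rfl, hst⟩ ⟨hst, le_rfl⟩
      intro r
      rw [← Real.norm_eq_abs]
      refine (ContinuousLinearMap.le_opNorm _ _).trans ?_
      rw [norm_cs, mul_one]
      rfl
    have h2 := cs_w hst (w := fun x => x) (f := fun r => ‖fderiv ℝ u (pc (a : ℂ) r θ)‖)
      continuousOn_id (hd.comp (hcr θ)).continuousOn (fun x hx => hs.trans_le hx.1)
    rw [hL] at h2
    refine le_trans ?_ h2
    rw [← sq_abs]
    exact pow_le_pow_left₀ (abs_nonneg _) h1 2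
  have hcθ : ∀ r, Continuous (fun θ => u (pc (a : ℂ) r θ)) := fun r =>
    hu.continuous.comp ((pc_cont (a : ℂ)).comp (Continuous.prodMk_right r))
  have e : cmH u a t - cmH u a s =
      (∫ θ in (0:ℝ)..Real.pi, (u (pc (a : ℂ) t θ) - u (pc (a : ℂ) s θ))) / Real.pi := by
    rw [intervalIntegral.integral_sub ((hcθ t).intervalIntegrable _ _)
      ((hcθ s).intervalIntegrable _ _)]
    unfold cmH
    ring
  have h3 := cs_1 (a := 0) (b := Real.pi) hpi.le
    (f := fun θ => u (pc (a : ℂ) t θ) - u (pc (a : ℂ) s θ)) ((hcθ t).sub (hcθ s)).continuousOn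
  have hlog : 0 ≤ Real.log (t / s) := Real.log_nonneg (by rw [le_div_iff₀ hs]; linarith)
  have hin : Continuous (fun θ => ∫ r in s..t, r * ‖fderiv ℝ u (pc (a : ℂ) r θ)‖ ^ 2) := by
    apply intervalIntegral.continuous_parametric_intervalIntegral_of_continuous'
      (f := fun θ r => r * ‖fderiv ℝ u (pc (a : ℂ) r θ)‖ ^ 2)
    exact hFc.comp continuous_swap
  have h4 : ∫ θ in (0:ℝ)..Real.pi, (u (pc (a : ℂ) t θ) - u (pc (a : ℂ) s θ)) ^ 2 ≤
      Real.log (t / s) * E := by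
    calc ∫ θ in (0:ℝ)..Real.pi, (u (pc (a : ℂ) t θ) - u (pc (a : ℂ) s θ)) ^ 2
        ≤ ∫ θ in (0:ℝ)..Real.pi, Real.log (t / s) *
            ∫ r in s..t, r * ‖fderiv ℝ u (pc (a : ℂ) r θ)‖ ^ 2 := by
          apply intervalIntegral.integral_mono_on hpi.le
          · exact (((hcθ t).sub (hcθ s)).pow 2).intervalIntegrable _ _
          · exact (continuous_const.mul hin).intervalIntegrable _ _
          · intro θ _
            exact hrad θ
      _ = Real.log (t / s) * ∫ θ in (0:ℝ)..Real.pi,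
            ∫ r in s..t, r * ‖fderiv ℝ u (pc (a : ℂ) r θ)‖ ^ 2 := by
          rw [intervalIntegral.integral_const_mul]
      _ ≤ Real.log (t / s) * E := mul_le_mul_of_nonneg_left hen hlog
  rw [e, div_pow, div_le_iff₀ (by positivity)]
  calc (∫ θ in (0:ℝ)..Real.pi, (u (pc (a : ℂ) t θ) - u (pc (a : ℂ) s θ))) ^ 2
      ≤ (Real.pi - 0) * (Real.log (t / s) * E) :=
        h3.trans (mul_le_mul_of_nonneg_left h4 (by linarith))
    _ = Real.log (t / s) / Real.pi * E * Real.pi ^ 2 := by field_simp; ring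

theorem hce_cont {u : ℂ → ℝ} (hu : ContDiff ℝ 1 u) (a : ℝ) : Continuous (hce u a) := by
  unfold hce
  apply intervalIntegral.continuous_parametric_intervalIntegral_of_continuous'
    (f := fun r θ => ‖fderiv ℝ u (pc (a : ℂ) r θ)‖ ^ 2)
  exact ((dens_cont hu).comp (pc_cont (a : ℂ))).pow 2

theorem polar_hce {u : ℂ → ℝ} (hu : ContDiff ℝ 1 u) (hfin : enH u univ ≠ ⊤) (a : ℝ) {s t : ℝ}
    (hs : 0 ≤ s) (hst : s ≤ t) :
    (∫ r in s..t, r * hce u a r) ≤
      (enH u).real {z | s < dist z (a : ℂ) ∧ dist z (a : ℂ) ≤ t} := by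
  refine le_trans (le_of_eq ?_) (polar_enH hu hfin a hs hst)
  unfold hce
  congr 1
  ext r
  rw [intervalIntegral.integral_const_mul]

theorem log_quarter {s t : ℝ} (hs : 0 < s) (hst : s ≤ t) (h : t ≤ 2 * s) :
    Real.log (t / s) / Real.pi ≤ 1 / 4 := by
  have h1 := log_eighth hs hst h
  have : Real.log (t / s) / Real.pi = 2 * (Real.log (t / s) / (2 * Real.pi)) := by
    field_simp
  rw [this]
  linarith

theorem half_inner {u : ℂ → ℝ} (hu : ContDiff ℝ 1 u) (hfin : enH u univ ≠ ⊤) (a : ℝ) {σ κ : ℝ}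
    (hσ : 0 < σ) (hK : ∀ r ∈ Icc (σ / 2) σ, ∃ x : ℂ, 0 ≤ x.im ∧ dist x (a : ℂ) = r ∧ u x = κ) :
    (cmH u a σ - κ) ^ 2 ≤
      14 * (enH u).real {z | σ / 2 < dist z (a : ℂ) ∧ dist z (a : ℂ) ≤ σ} := by
  have : IsFiniteMeasure (enH u) := ⟨lt_top_iff_ne_top.mpr hfin⟩
  have hpi := Real.pi_pos
  obtain ⟨E, hE⟩ : ∃ E, E = (enH u).real {z | σ / 2 < dist z (a : ℂ) ∧ dist z (a : ℂ) ≤ σ} :=
    ⟨_, rfl⟩
  have hJ := polar_hce hu hfin a (s := σ / 2) (t := σ) (by positivity) (by linarith)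
  rw [← hE] at hJ ⊢
  have hE0 : 0 ≤ E := by rw [hE]; exact measureReal_nonneg
  have hce' := hce_cont hu a
  have key : ∀ r ∈ Icc (σ / 2) σ, (cmH u a σ - κ) ^ 2 ≤
      E / 2 + 2 * Real.pi * σ * (r * hce u a r) := by
    intro r hr
    have hr0 : 0 < r := lt_of_lt_of_le (by positivity) hr.1
    obtain ⟨z, him, hz, hκ⟩ := hK r hr
    have h1 := half_osc hu a hr0.le hz him
    rw [hκ] at h1
    have h2 := half_radial hu hfin a hr0 hr.2
    have h3 := log_quarter hr0 hr.2 (by linarith [hr.1])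
    have h4 : (enH u).real {z | r < dist z (a : ℂ) ∧ dist z (a : ℂ) ≤ σ} ≤ E := by
      rw [hE]
      refine mr_mono ?_
      rintro w ⟨h5, h6⟩
      exact ⟨lt_of_le_of_lt hr.1 h5, h6⟩
    have h5 : (cmH u a σ - cmH u a r) ^ 2 ≤ 1 / 4 * E :=
      h2.trans (mul_le_mul h3 h4 measureReal_nonneg (by norm_num))
    have h6 : 0 ≤ hce u a r :=
      intervalIntegral.integral_nonneg hpi.le (fun x _ => sq_nonneg _)
    have h7 : Real.pi * r ^ 2 * hce u a r ≤ Real.pi * σ * (r * hce u a r) := by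
      have : r * hce u a r * r ≤ r * hce u a r * σ :=
        mul_le_mul_of_nonneg_left hr.2 (mul_nonneg hr0.le h6)
      nlinarith
    nlinarith [sq_nonneg ((cmH u a σ - cmH u a r) - (cmH u a r - κ))]
  have h1 : ∫ _r in (σ / 2)..σ, (cmH u a σ - κ) ^ 2 ≤
      ∫ r in (σ / 2)..σ, (E / 2 + 2 * Real.pi * σ * (r * hce u a r)) := by
    apply intervalIntegral.integral_mono_on (by linarith)
    · exact continuous_const.intervalIntegrable _ _
    · apply Continuous.intervalIntegrable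
      exact continuous_const.add (continuous_const.mul (continuous_id.mul hce'))
    · exact key
  have i0 : IntervalIntegrable (fun _ : ℝ => E / 2) volume (σ / 2) σ :=
    continuous_const.intervalIntegrable _ _
  have i1 : IntervalIntegrable (fun r => 2 * Real.pi * σ * (r * hce u a r)) volume (σ / 2) σ :=
    (continuous_const.mul (continuous_id.mul hce')).intervalIntegrable _ _
  rw [intervalIntegral.integral_const, intervalIntegral.integral_add i0 i1,
    intervalIntegral.integral_const, intervalIntegral.integral_const_mul, smul_eq_mul,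
    smul_eq_mul] at h1
  have h2 : 2 * Real.pi * σ * (∫ r in (σ / 2)..σ, r * hce u a r) ≤ 2 * Real.pi * σ * E :=
    mul_le_mul_of_nonneg_left hJ (by positivity)
  have h3 : σ * ((cmH u a σ - κ) ^ 2) ≤ σ * (E / 2 + 4 * Real.pi * E) := by nlinarith
  have h4 := le_of_mul_le_mul_left h3 hσ
  have h5 := Real.pi_lt_d2
  nlinarith

theorem en1 : S_EN1 := by
  refine ⟨14, by norm_num, fun u a σ δ κ hu hfin hσ hσδ hK => ?_⟩
  have : IsFiniteMeasure (enH u) := ⟨lt_top_iff_ne_top.mpr hfin⟩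
  have h1 := half_inner hu hfin a hσ hK
  have h2 := half_radial hu hfin a hσ hσδ
  have l1 : 0 ≤ Real.log (δ / σ) / Real.pi :=
    div_nonneg (Real.log_nonneg (by rw [le_div_iff₀ hσ]; linarith)) Real.pi_pos.le
  have h3 := comb l1 (by norm_num) measureReal_nonneg measureReal_nonneg h2 h1
  have e : cmH u a δ - cmH u a σ + (cmH u a σ - κ) = cmH u a δ - κ := by ring
  rw [e] at h3
  have u1 : (enH u).real {z | σ < dist z (a : ℂ) ∧ dist z (a : ℂ) ≤ δ} +
      (enH u).real {z | σ / 2 < dist z (a : ℂ) ∧ dist z (a : ℂ) ≤ σ} ≤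
      (enH u).real {z | dist z (a : ℂ) ≤ δ} := by
    rw [← measureReal_union _ (ann_meas (a : ℂ) (σ / 2) σ)]
    · refine mr_mono ?_
      rintro z (⟨-, h⟩ | ⟨-, h⟩)
      · exact h
      · exact h.trans hσδ
    · rw [Set.disjoint_left]
      rintro z ⟨h', -⟩ ⟨-, h⟩
      linarith
  calc (cmH u a δ - κ) ^ 2 ≤ _ := h3
    _ ≤ (Real.log (δ / σ) / Real.pi + 14) * (enH u).real {z | dist z (a : ℂ) ≤ δ} :=
        mul_le_mul_of_nonneg_left u1 (by positivity)
    _ = (14 + Real.log (δ / σ) / Real.pi) * (enH u).real {z | dist z (a : ℂ) ≤ δ} := by ring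

end Pool.Agent.Y674.QH
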