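import Mathlib
import Pool.Agent.Y674.QH.Half

/-!
The region between the two half-discs: the energy bound (project QH, S_EN2).
-/

set_option autoImplicit false

namespace Pool.Agent.Y674.QH

open MeasureTheory Set
open Pool.Agent.Y996.RD Pool.Agent.Y996.QH

open scoped ENNReal

/-- the point at distance `r` and angle `θ` (from the vertical) from `c` -/
noncomputable def pv (c : ℂ) (r θ : ℝ) : ℂ := c + Complex.I * (pc c r θ - c)

theorem pv_im (c : ℂ) (r θ : ℝ) : (pv c r θ).im = c.im + r * Real.cos θ := by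
  unfold pv pc
  simp only [Complex.add_im, Complex.mul_im, Complex.ofReal_re, Complex.ofReal_im, Complex.I_re,
    Complex.I_im, Complex.add_re, Complex.mul_re, Complex.sub_re, Complex.sub_im]
  ring

theorem pv_cont (c : ℂ) : Continuous (fun p : ℝ × ℝ => pv c p.1 p.2) := by
  unfold pv
  exact continuous_const.add (continuous_const.mul ((pc_cont c).sub continuous_const))

theorem pv_contθ (c : ℂ) (r : ℝ) : Continuous (fun θ : ℝ => pv c r θ) := by
  have h : Continuous (fun θ : ℝ => pc c r θ) := (pc_cont c).comp (Continuous.prodMk_right r)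
  unfold pv
  exact continuous_const.add (continuous_const.mul (h.sub continuous_const))

theorem pv_surj (c z : ℂ) : ∃ θ ∈ Icc (-Real.pi) Real.pi, pv c (dist z c) θ = z := by
  obtain ⟨θ, hθ, h⟩ := pc_surj c (c - Complex.I * (z - c))
  have hd : dist (c - Complex.I * (z - c)) c = dist z c := by
    rw [dist_eq_norm, dist_eq_norm, show c - Complex.I * (z - c) - c = -(Complex.I * (z - c)) by ring,
      norm_neg, norm_mul, Complex.norm_I, one_mul]
  rw [hd] at h
  refine ⟨θ, hθ, ?_⟩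
  unfold pv
  rw [h]
  have := Complex.I_sq
  linear_combination (-(z - c)) * this

theorem pv_deriv_θ (c : ℂ) (r θ : ℝ) :
    HasDerivAt (fun t => pv c r t)
      (Complex.I * (r * (-Real.sin θ + Real.cos θ * Complex.I))) θ :=
  (((pc_deriv_θ c r θ).sub_const c).const_mul Complex.I).const_add c

/-- rotation by a right angle around `c` -/
theorem rot_lint (f : ℂ → ℝ≥0∞) (hf : Measurable f) (c : ℂ) :
    ∫⁻ z, f (c + Complex.I * (z - c)) = ∫⁻ z, f z := by
  rw [← lint_rot f hf c Complex.I Complex.norm_I]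
  have hg : Measurable (fun z : ℂ => f (c + Complex.I * (z - c))) :=
    hf.comp (by fun_prop)
  rw [← lint_rot _ hg c 1 norm_one]
  apply lintegral_congr
  intro x
  apply lintegral_congr
  intro y
  congr 2
  ring

theorem polar_pv (f : ℂ → ℝ≥0∞) (hf : Measurable f) (c : ℂ) {s t : ℝ} (hs : 0 ≤ s) :
    ∫⁻ r in Ioc s t, ∫⁻ θ in Ioc (-Real.pi) Real.pi, ENNReal.ofReal r * f (pv c r θ) ≤
      ∫⁻ z in {z | s < dist z c ∧ dist z c ≤ t}, f z := by
  have hA := ann_meas c s t
  have hg : Measurable (fun z : ℂ => f (c + Complex.I * (z - c))) :=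
    hf.comp (by fun_prop)
  refine (polar_lint (fun z => f (c + Complex.I * (z - c))) hg c hs).trans (le_of_eq ?_)
  rw [← lintegral_indicator hA, ← lintegral_indicator hA,
    ← rot_lint _ (hf.indicator hA) c]
  apply lintegral_congr
  intro z
  have hd : dist (c + Complex.I * (z - c)) c = dist z c := by
    rw [dist_eq_norm, dist_eq_norm, add_sub_cancel_left, norm_mul, Complex.norm_I, one_mul]
  by_cases h : z ∈ {z | s < dist z c ∧ dist z c ≤ t}
  · rw [Set.indicator_of_mem h, Set.indicator_of_mem]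
    show s < dist (c + Complex.I * (z - c)) c ∧ dist (c + Complex.I * (z - c)) c ≤ t
    rw [hd]
    exact h
  · rw [Set.indicator_of_notMem h, Set.indicator_of_notMem]
    show ¬ (s < dist (c + Complex.I * (z - c)) c ∧ dist (c + Complex.I * (z - c)) c ≤ t)
    rw [hd]
    exact h

/-- the energy of the part of the circle in the half-plane -/
noncomputable def AE (u : ℂ → ℝ) (c : ℂ) (r : ℝ) : ℝ≥0∞ :=
  ∫⁻ θ in Ioc (-Real.pi) Real.pi, dH u (pv c r θ)

theorem AE_meas {u : ℂ → ℝ} (hu : ContDiff ℝ 1 u) (c : ℂ) : Measurable (AE u c) := by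
  unfold AE
  exact Measurable.lintegral_prod_right' (f := fun p : ℝ × ℝ => dH u (pv c p.1 p.2))
    ((dH_meas hu).comp (pv_cont c).measurable)

theorem AE_int {u : ℂ → ℝ} (hu : ContDiff ℝ 1 u) (c : ℂ) {s t : ℝ} (hs : 0 ≤ s) :
    ∫⁻ r in Ioc s t, ENNReal.ofReal r * AE u c r ≤
      enH u {z | s < dist z c ∧ dist z c ≤ t} := by
  rw [enH_apply u (ann_meas c s t)]
  refine le_trans (le_of_eq ?_) (polar_pv (dH u) (dH_meas hu) c hs)
  apply lintegral_congr
  intro r
  unfold AE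
  rw [lintegral_const_mul']
  exact ENNReal.ofReal_ne_top

theorem cos_gt {x θ y : ℝ} (hx : -Real.pi ≤ x) (h1 : x < θ) (h2 : θ < y) (hy : y ≤ Real.pi) :
    min (Real.cos x) (Real.cos y) < Real.cos θ := by
  rcases le_or_gt 0 θ with h | h
  · refine (min_le_right _ _).trans_lt ?_
    exact Real.strictAntiOn_cos ⟨h, by linarith⟩ ⟨by linarith, hy⟩ h2
  · refine (min_le_left _ _).trans_lt ?_
    rw [← Real.cos_neg x, ← Real.cos_neg θ]
    exact Real.strictAntiOn_cos ⟨by linarith, by linarith⟩ ⟨by linarith, by linarith⟩ (by linarith)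

theorem sq2 (a b : ℝ) : (a + b) ^ 2 ≤ 2 * a ^ 2 + 2 * b ^ 2 := by
  nlinarith [sq_nonneg (a - b)]

theorem sq3 (a b c : ℝ) : (a + b + c) ^ 2 ≤ 3 * ((a ^ 2 + c ^ 2) + b ^ 2) := by
  nlinarith [sq_nonneg (a - b), sq_nonneg (b - c), sq_nonneg (a - c)]

theorem AE_ge {u : ℂ → ℝ} (hu : ContDiff ℝ 1 u) (c : ℂ) {r : ℝ} (hr : 0 < r) {α β : ℝ}
    (hα : α ∈ Icc (-Real.pi) Real.pi) (hβ : β ∈ Icc (-Real.pi) Real.pi) (hab : α ≤ β)
    (h1 : 0 ≤ (pv c r α).im) (h2 : 0 ≤ (pv c r β).im) :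
    ENNReal.ofReal (∫ θ in α..β, ‖fderiv ℝ u (pv c r θ)‖ ^ 2) ≤ AE u c r := by
  have hcθ : Continuous (fun θ => pv c r θ) := pv_contθ c r
  have hc2 : Continuous (fun θ => ‖fderiv ℝ u (pv c r θ)‖ ^ 2) := ((dens_cont hu).comp hcθ).pow 2
  rw [intervalIntegral.integral_of_le hab, ofReal_integral_eq_lintegral_ofReal
    ((hc2.integrableOn_Icc (a := α) (b := β)).mono_set Ioc_subset_Icc_self)
    (Filter.Eventually.of_forall fun _ => sq_nonneg _), ← restrict_Ioo_eq_restrict_Ioc]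
  unfold AE
  calc ∫⁻ θ in Ioo α β, ENNReal.ofReal (‖fderiv ℝ u (pv c r θ)‖ ^ 2)
      = ∫⁻ θ in Ioo α β, dH u (pv c r θ) := by
        apply setLIntegral_congr_fun measurableSet_Ioo
        intro θ hθ
        simp only
        rw [dH_pos]
        have h7 := cos_gt hα.1 hθ.1 hθ.2 hβ.2
        rw [pv_im] at h1 h2 ⊢
        rcases le_total (Real.cos α) (Real.cos β) with h10 | h10
        · rw [min_eq_left h10] at h7
          have := mul_lt_mul_of_pos_left h7 hr
          linarith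
        · rw [min_eq_right h10] at h7
          have := mul_lt_mul_of_pos_left h7 hr
          linarith
    _ ≤ ∫⁻ θ in Ioc (-Real.pi) Real.pi, dH u (pv c r θ) := by
        apply lintegral_mono_set
        intro θ hθ
        exact ⟨hα.1.trans_lt hθ.1, hθ.2.le.trans hβ.2⟩

/-- two points of a circle in the closed half-plane -/
theorem arc_osc {u : ℂ → ℝ} (hu : ContDiff ℝ 1 u) (c : ℂ) {r : ℝ} (hr : 0 < r) {p q : ℂ}
    (hp : dist p c = r) (hq : dist q c = r) (hpi : 0 ≤ p.im) (hqi : 0 ≤ q.im) :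
    ENNReal.ofReal ((u p - u q) ^ 2) ≤ ENNReal.ofReal (2 * Real.pi * r ^ 2) * AE u c r := by
  obtain ⟨α, hα, hpα⟩ := pv_surj c p
  obtain ⟨β, hβ, hqβ⟩ := pv_surj c q
  rw [hp] at hpα
  rw [hq] at hqβ
  wlog hab : α ≤ β generalizing p q α β with H
  · have h := H hq hp hqi hpi β hβ hqβ α hα hpα (le_of_not_ge hab)
    rwa [show (u q - u p) ^ 2 = (u p - u q) ^ 2 by ring] at h
  have hd := dens_cont hu
  have hcθ : Continuous (fun θ => pv c r θ) := pv_contθ c r
  have hdf : Differentiable ℝ u := hu.differentiable one_ne_zero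
  have hder : ∀ θ, HasDerivAt (fun t => u (pv c r t))
      (fderiv ℝ u (pv c r θ) (Complex.I * (r * (-Real.sin θ + Real.cos θ * Complex.I)))) θ :=
    fun θ => (hdf (pv c r θ)).hasFDerivAt.comp_hasDerivAt θ (pv_deriv_θ c r θ)
  have hder_c : Continuous (fun θ : ℝ =>
      fderiv ℝ u (pv c r θ) (Complex.I * (r * (-Real.sin θ + Real.cos θ * Complex.I)))) := by
    apply Continuous.clm_apply
    · exact (hu.continuous_fderiv one_ne_zero).comp hcθ
    · fun_prop
  have hBc : Continuous (fun θ => r * ‖fderiv ℝ u (pv c r θ)‖) :=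
    continuous_const.mul (hd.comp hcθ)
  have h1 : |u (pv c r β) - u (pv c r α)| ≤ ∫ θ in α..β, r * ‖fderiv ℝ u (pv c r θ)‖ := by
    refine osc_1 (v := fun t => u (pv c r t)) hder hder_c ?_ hBc ⟨le_rfl, hab⟩ ⟨hab, le_rfl⟩
    intro θ
    rw [← Real.norm_eq_abs]
    refine (ContinuousLinearMap.le_opNorm _ _).trans ?_
    rw [norm_mul, Complex.norm_I, one_mul, norm_sc, abs_of_pos hr, mul_comm]
  have h2 := cs_1 hab hBc.continuousOn
  have h3 : (u p - u q) ^ 2 ≤ 2 * Real.pi * r ^ 2 * ∫ θ in α..β, ‖fderiv ℝ u (pv c r θ)‖ ^ 2 := by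
    have h4 : (u p - u q) ^ 2 ≤ (∫ θ in α..β, r * ‖fderiv ℝ u (pv c r θ)‖) ^ 2 := by
      rw [← hpα, ← hqβ, show (u (pv c r α) - u (pv c r β)) ^ 2 =
        (u (pv c r β) - u (pv c r α)) ^ 2 by ring, ← sq_abs]
      exact pow_le_pow_left₀ (abs_nonneg _) h1 2
    have e : ∫ θ in α..β, (r * ‖fderiv ℝ u (pv c r θ)‖) ^ 2 =
        r ^ 2 * ∫ θ in α..β, ‖fderiv ℝ u (pv c r θ)‖ ^ 2 := by
      rw [← intervalIntegral.integral_const_mul]
      congr 1
      ext θ
      ring
    rw [e] at h2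
    have h5 : 0 ≤ ∫ θ in α..β, ‖fderiv ℝ u (pv c r θ)‖ ^ 2 :=
      intervalIntegral.integral_nonneg hab (fun x _ => sq_nonneg _)
    have h6 : (β - α) * (r ^ 2 * ∫ θ in α..β, ‖fderiv ℝ u (pv c r θ)‖ ^ 2) ≤
        2 * Real.pi * (r ^ 2 * ∫ θ in α..β, ‖fderiv ℝ u (pv c r θ)‖ ^ 2) :=
      mul_le_mul_of_nonneg_right (by linarith [hα.1, hβ.2]) (by positivity)
    calc (u p - u q) ^ 2 ≤ _ := h4
      _ ≤ _ := h2
      _ ≤ _ := h6
      _ = _ := by ring
  have hK := AE_ge hu c hr hα hβ hab (by rw [hpα]; exact hpi) (by rw [hqβ]; exact hqi)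
  calc ENNReal.ofReal ((u p - u q) ^ 2)
      ≤ ENNReal.ofReal (2 * Real.pi * r ^ 2 * ∫ θ in α..β, ‖fderiv ℝ u (pv c r θ)‖ ^ 2) :=
        ENNReal.ofReal_le_ofReal h3
    _ = ENNReal.ofReal (2 * Real.pi * r ^ 2) *
          ENNReal.ofReal (∫ θ in α..β, ‖fderiv ℝ u (pv c r θ)‖ ^ 2) :=
        ENNReal.ofReal_mul (by positivity)
    _ ≤ ENNReal.ofReal (2 * Real.pi * r ^ 2) * AE u c r := mul_le_mul' le_rfl hK

/-- the value at a point of the circle and the handle -/
theorem handle_arc {u : ℂ → ℝ} (hu : ContDiff ℝ 1 u) (hfin : enH u univ ≠ ⊤) {c : ℂ}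
    {δ J E : ℝ} (hδ : 0 < δ) (hH : Handle u c δ J)
    (hE : ∀ t ≤ 2 * δ, (enH u).real {z | δ < dist z c ∧ dist z c ≤ t} ≤ E)
    {r : ℝ} (hr1 : δ < r) (hr2 : r ≤ 2 * δ) {p : ℂ} (hp : dist p c = r) (hpi : 0 ≤ p.im) :
    ENNReal.ofReal ((J - u p) ^ 2) ≤
      ENNReal.ofReal (E / 2) + ENNReal.ofReal (8 * Real.pi * δ) * (ENNReal.ofReal r * AE u c r) := by
  have hr0 : 0 < r := hδ.trans hr1
  have hπ := Real.pi_pos
  have hE0 : 0 ≤ E := measureReal_nonneg.trans (hE _ le_rfl)
  have hb : ENNReal.ofReal (2 * (2 * Real.pi * r ^ 2)) * AE u c r ≤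
      ENNReal.ofReal (8 * Real.pi * δ) * (ENNReal.ofReal r * AE u c r) := by
    have e : ENNReal.ofReal (8 * Real.pi * δ) * (ENNReal.ofReal r * AE u c r) =
        ENNReal.ofReal (8 * Real.pi * δ * r) * AE u c r := by
      rw [← mul_assoc, ← ENNReal.ofReal_mul (p := 8 * Real.pi * δ) (by positivity)]
    rw [e]
    refine mul_le_mul_left (ENNReal.ofReal_le_ofReal ?_) _
    have : 4 * Real.pi * r * r ≤ 4 * Real.pi * r * (2 * δ) :=
      mul_le_mul_of_nonneg_left hr2 (by positivity)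
    nlinarith
  rcases hH with ⟨a, rfl, hJ⟩ | hH
  · rcases eq_or_ne (AE u (a : ℂ) r) ⊤ with htop | hfinA
    · rw [htop, ENNReal.mul_top (by simpa using hr0), ENNReal.mul_top (by
        simp only [ne_eq, ENNReal.ofReal_eq_zero, not_le]; positivity), add_top]
      exact le_top
    obtain ⟨B, hB⟩ : ∃ B : ℝ, B = (ENNReal.ofReal (2 * Real.pi * r ^ 2) * AE u (a : ℂ) r).toReal :=
      ⟨_, rfl⟩
    have hBtop : ENNReal.ofReal (2 * Real.pi * r ^ 2) * AE u (a : ℂ) r ≠ ⊤ :=
      ENNReal.mul_ne_top ENNReal.ofReal_ne_top hfinA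
    have hB0 : 0 ≤ B := by rw [hB]; exact ENNReal.toReal_nonneg
    have hBe : ENNReal.ofReal B = ENNReal.ofReal (2 * Real.pi * r ^ 2) * AE u (a : ℂ) r := by
      rw [hB, ENNReal.ofReal_toReal hBtop]
    -- all points of the half-circle
    have hq : ∀ θ ∈ Icc 0 Real.pi, |u (pc (a : ℂ) r θ) - u p| ≤ Real.sqrt B := by
      intro θ hθ
      have h1 := arc_osc hu (a : ℂ) hr0 (p := pc (a : ℂ) r θ) (q := p)
        (by rw [dist_pc, abs_of_pos hr0]) hp
        (by
          rw [pc_im, Complex.ofReal_im, zero_add]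
          exact mul_nonneg hr0.le (Real.sin_nonneg_of_nonneg_of_le_pi hθ.1 hθ.2)) hpi
      rw [← hBe, ENNReal.ofReal_le_ofReal_iff hB0] at h1
      exact Real.abs_le_sqrt h1
    have hcu : Continuous (fun θ => u (pc (a : ℂ) r θ)) :=
      hu.continuous.comp ((pc_cont (a : ℂ)).comp (Continuous.prodMk_right r))
    have h2 : |cmH u a r - u p| ≤ Real.sqrt B := by
      have e : cmH u a r - u p =
          (∫ θ in (0:ℝ)..Real.pi, (u (pc (a : ℂ) r θ) - u p)) / Real.pi := by
        rw [intervalIntegral.integral_sub (hcu.intervalIntegrable _ _)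
          (continuous_const.intervalIntegrable _ _), intervalIntegral.integral_const]
        unfold cmH
        rw [smul_eq_mul]
        field_simp
        ring
      rw [e, abs_div, abs_of_pos hπ, div_le_iff₀ hπ]
      have := intervalIntegral.norm_integral_le_of_norm_le_const (a := 0) (b := Real.pi)
        (f := fun θ => u (pc (a : ℂ) r θ) - u p) (C := Real.sqrt B) (by
          intro x hx
          rw [Real.norm_eq_abs]
          apply hq
          rw [uIoc_of_le hπ.le] at hx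
          exact Ioc_subset_Icc_self hx)
      rw [Real.norm_eq_abs] at this
      refine this.trans (le_of_eq ?_)
      rw [sub_zero, abs_of_nonneg hπ.le]
    have h3 : (cmH u a r - u p) ^ 2 ≤ B := by
      rw [← sq_abs, ← Real.sq_sqrt hB0]
      exact pow_le_pow_left₀ (abs_nonneg _) h2 2
    have h4 : (cmH u a r - cmH u a δ) ^ 2 ≤ 1 / 4 * E :=
      (half_radial hu hfin a hδ hr1.le).trans (mul_le_mul (log_quarter hδ hr1.le hr2) (hE _ hr2)
        measureReal_nonneg (by norm_num))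
    have h5 : (J - u p) ^ 2 ≤ E / 2 + 2 * B := by
      have g1 := sq2 (-(cmH u a r - cmH u a δ)) (cmH u a r - u p)
      rw [neg_sq, show -(cmH u a r - cmH u a δ) + (cmH u a r - u p) = J - u p by rw [hJ]; ring]
        at g1
      linarith
    refine (ENNReal.ofReal_le_ofReal h5).trans ?_
    rw [ENNReal.ofReal_add (by positivity) (by positivity)]
    refine add_le_add_right ?_ _
    rw [ENNReal.ofReal_mul (by norm_num), hBe, ← mul_assoc, ← ENNReal.ofReal_mul (by norm_num)]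
    exact hb
  · obtain ⟨x, hx1, hx2, hx3⟩ := hH r ⟨hr1.le, hr2⟩
    have h1 := arc_osc hu c hr0 hx2 hp hx1 hpi
    rw [hx3] at h1
    refine h1.trans (le_trans ?_ le_add_self)
    refine le_trans ?_ hb
    refine mul_le_mul_left (ENNReal.ofReal_le_ofReal ?_) _
    have : 0 ≤ 2 * Real.pi * r ^ 2 := by positivity
    linarith

/-- rectangles -/
theorem rect_enH {u : ℂ → ℝ} (hu : ContDiff ℝ 1 u) (hfin : enH u univ ≠ ⊤) (z1 ω : ℂ)
    (hω : ‖ω‖ = 1) {a b s t : ℝ} (hab : a ≤ b) (hst : s ≤ t) {M : Set ℂ} (hM : MeasurableSet M)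
    (hsub : ∀ x ∈ Ioc a b, ∀ y ∈ Ioc s t, z1 + ω * (x + y * Complex.I) ∈ M ∧
      0 < (z1 + ω * (x + y * Complex.I)).im) :
    (∫ y in s..t, ∫ x in a..b, ‖fderiv ℝ u (z1 + ω * (x + y * Complex.I))‖ ^ 2) ≤
      (enH u).real M := by
  have hd := dens_cont hu
  have hlt : enH u M ≠ ⊤ := ne_top_of_le_ne_top hfin (measure_mono (subset_univ _))
  have hF : Continuous (fun p : ℝ × ℝ =>
      ‖fderiv ℝ u (z1 + ω * (p.1 + p.2 * Complex.I))‖ ^ 2) :=
    (hd.comp (by fun_prop)).pow 2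
  rw [← dbl_swap (F := fun x y => ‖fderiv ℝ u (z1 + ω * (x + y * Complex.I))‖ ^ 2) hF hab hst,
    measureReal_def]
  refine (ENNReal.ofReal_le_iff_le_toReal hlt).mp ?_
  rw [ofReal_dbl (F := fun x y => ‖fderiv ℝ u (z1 + ω * (x + y * Complex.I))‖ ^ 2) hF hab hst
    (fun x hx y _ => sq_nonneg _)]
  rw [enH_apply u hM, ← lintegral_indicator hM,
    ← lint_rot _ ((dH_meas hu).indicator hM) z1 ω hω]
  calc ∫⁻ x in Ioc a b, ∫⁻ y in Ioc s t,
        ENNReal.ofReal (‖fderiv ℝ u (z1 + ω * (x + y * Complex.I))‖ ^ 2)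
      = ∫⁻ x in Ioc a b, ∫⁻ y in Ioc s t,
        M.indicator (dH u) (z1 + ω * (x + y * Complex.I)) := by
        apply setLIntegral_congr_fun measurableSet_Ioc
        intro x hx
        apply setLIntegral_congr_fun measurableSet_Ioc
        intro y hy
        simp only
        rw [Set.indicator_of_mem (hsub x hx y hy).1, dH_pos (hsub x hx y hy).2]
    _ ≤ ∫⁻ x in Ioc a b, ∫⁻ y : ℝ,
        M.indicator (dH u) (z1 + ω * (x + y * Complex.I)) := by
        apply lintegral_mono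
        intro x
        exact setLIntegral_le_lintegral _ _
    _ ≤ _ := setLIntegral_le_lintegral _ _

/-- segments -/
theorem seg_osc {u : ℂ → ℝ} (hu : ContDiff ℝ 1 u) (z1 ω : ℂ) (hω : ‖ω‖ = 1) {a b : ℝ}
    (hab : a ≤ b) (y : ℝ) :
    (u (z1 + ω * ((b:ℝ) + y * Complex.I)) - u (z1 + ω * ((a:ℝ) + y * Complex.I))) ^ 2 ≤
      (b - a) * ∫ x in a..b, ‖fderiv ℝ u (z1 + ω * (x + y * Complex.I))‖ ^ 2 := by
  have hdc := dens_cont hu
  have hdf : Differentiable ℝ u := hu.differentiable one_ne_zero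
  have hp : Continuous (fun x : ℝ => z1 + ω * ((x:ℂ) + y * Complex.I)) := by fun_prop
  have hder : ∀ x : ℝ, HasDerivAt (fun x : ℝ => z1 + ω * ((x:ℂ) + y * Complex.I)) ω x := by
    intro x
    have h1 : HasDerivAt (fun t : ℝ => (t : ℂ)) 1 x := by
      simpa using (hasDerivAt_id x).ofReal_comp
    have h2 := ((h1.add_const (y * Complex.I)).const_mul ω).const_add z1
    rw [mul_one] at h2
    exact h2
  have h1 : |u (z1 + ω * ((b:ℝ) + y * Complex.I)) - u (z1 + ω * ((a:ℝ) + y * Complex.I))| ≤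
      ∫ x in a..b, ‖fderiv ℝ u (z1 + ω * (x + y * Complex.I))‖ := by
    refine osc_1 (v := fun x : ℝ => u (z1 + ω * ((x:ℂ) + y * Complex.I)))
      (v' := fun x : ℝ => fderiv ℝ u (z1 + ω * ((x:ℂ) + y * Complex.I)) ω)
      (fun x => (hdf _).hasFDerivAt.comp_hasDerivAt x (hder x))
      (Continuous.clm_apply ((hu.continuous_fderiv one_ne_zero).comp hp) continuous_const)
      ?_ (hdc.comp hp) ⟨le_rfl, hab⟩ ⟨hab, le_rfl⟩
    intro x
    rw [← Real.norm_eq_abs]
    refine (ContinuousLinearMap.le_opNorm _ _).trans ?_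
    rw [hω, mul_one]
    rfl
  have h2 := cs_1 hab (hdc.comp hp).continuousOn
  rw [← sq_abs]
  exact (pow_le_pow_left₀ (abs_nonneg _) h1 2).trans h2

theorem norm_w (ω : ℂ) (hω : ‖ω‖ = 1) (x y : ℝ) :
    ‖ω * ((x : ℂ) + y * Complex.I)‖ = Real.sqrt (x ^ 2 + y ^ 2) := by
  rw [norm_mul, hω, one_mul, Complex.norm_add_mul_I]

theorem w_im (c1 c2 ω : ℂ) {d : ℝ} (hd : 0 < d) (h : c2 = c1 + ω * (d : ℂ)) (x y : ℝ) :
    (c1 + ω * ((x : ℂ) + y * Complex.I)).im =
      (1 - x / d) * c1.im + x / d * c2.im + y * ω.re := by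
  rw [h]
  simp only [Complex.add_im, Complex.mul_im, Complex.ofReal_re, Complex.ofReal_im, Complex.I_re,
    Complex.I_im, Complex.add_re, Complex.mul_re]
  field_simp
  ring

/-- S_EN2 with the points ordered from left to right -/
theorem en2' {u : ℂ → ℝ} {c1 c2 : ℂ} {δ J1 J2 : ℝ} (hu : ContDiff ℝ 1 u)
    (hfin : enH u univ ≠ ⊤) (hδ : 0 < δ) (h1 : 0 ≤ c1.im) (h2 : 0 ≤ c2.im)
    (hlo : 8 * δ ≤ dist c1 c2) (hup : dist c1 c2 ≤ 600 * δ) (H1 : Handle u c1 δ J1)
    (H2 : Handle u c2 δ J2) (hre : c1.re ≤ c2.re) :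
    (J1 - J2) ^ 2 ≤ 2000 * (enH u).real {z | δ < dist z c1 ∧ δ < dist z c2} := by
  have : IsFiniteMeasure (enH u) := ⟨lt_top_iff_ne_top.mpr hfin⟩
  have hpi := Real.pi_pos
  obtain ⟨M, hM⟩ : ∃ M : Set ℂ, M = {z | δ < dist z c1 ∧ δ < dist z c2} := ⟨_, rfl⟩
  obtain ⟨E, hE⟩ : ∃ E, E = (enH u).real M := ⟨_, rfl⟩
  rw [← hM, ← hE]
  have hMm : MeasurableSet M := by
    rw [hM]
    have h1 : MeasurableSet {z : ℂ | δ < dist z c1} :=
      measurableSet_lt measurable_const (continuous_id.dist continuous_const).measurable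
    have h2 : MeasurableSet {z : ℂ | δ < dist z c2} :=
      measurableSet_lt measurable_const (continuous_id.dist continuous_const).measurable
    exact h1.inter h2
  have hE0 : 0 ≤ E := by rw [hE]; exact measureReal_nonneg
  obtain ⟨d, hd⟩ : ∃ d, d = dist c1 c2 := ⟨_, rfl⟩
  rw [← hd] at hlo hup
  have hd0 : 0 < d := by linarith
  obtain ⟨ω, hω⟩ : ∃ ω : ℂ, ω = (c2 - c1) / ((d : ℝ) : ℂ) := ⟨_, rfl⟩
  have hω1 : ‖ω‖ = 1 := by
    rw [hω, norm_div, ← dist_eq_norm, dist_comm, ← hd, Complex.norm_real, Real.norm_eq_abs,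
      abs_of_pos hd0, div_self hd0.ne']
  have hc2 : c2 = c1 + ω * ((d : ℝ) : ℂ) := by
    have : ((d : ℝ) : ℂ) ≠ 0 := by
      rw [Complex.ofReal_ne_zero]; exact hd0.ne'
    rw [hω, div_mul_cancel₀ _ this]; ring
  have hωre : 0 ≤ ω.re := by
    rw [hω, Complex.div_ofReal_re, Complex.sub_re]
    exact div_nonneg (by linarith) hd0.le
  -- the annuli are in the middle region
  have hA1 : ∀ t ≤ 2 * δ, (enH u).real {z | δ < dist z c1 ∧ dist z c1 ≤ t} ≤ E := by
    intro t ht
    rw [hE, hM]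
    refine mr_mono ?_
    rintro z ⟨h1, h2⟩
    refine ⟨h1, ?_⟩
    have := dist_triangle c1 z c2
    rw [dist_comm c1 z] at this
    linarith
  have hA2 : ∀ t ≤ 2 * δ, (enH u).real {z | δ < dist z c2 ∧ dist z c2 ≤ t} ≤ E := by
    intro t ht
    rw [hE, hM]
    refine mr_mono ?_
    rintro z ⟨h1, h2⟩
    refine ⟨?_, h1⟩
    have := dist_triangle c1 z c2
    rw [dist_comm c1 z] at this
    linarith
  have hJ : ∀ c, (enH u).real {z | δ < dist z c ∧ dist z c ≤ 2 * δ} ≤ E →
      ∫⁻ r in Ioc δ (2 * δ), ENNReal.ofReal r * AE u c r ≤ ENNReal.ofReal E := by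
    intro c hc
    refine (AE_int hu c hδ.le).trans ?_
    rw [measureReal_def] at hc
    exact (ENNReal.le_ofReal_iff_toReal_le (measure_ne_top _ _) hE0).2 hc
  -- the rectangle
  obtain ⟨c1', hc1'⟩ : ∃ c1' : ℂ, c1' = c1 - ω * (δ * Complex.I) := ⟨_, rfl⟩
  have hpt : ∀ x r : ℝ, c1' + ω * ((x : ℂ) + r * Complex.I) =
      c1 + ω * ((x : ℂ) + ((r - δ : ℝ) : ℂ) * Complex.I) := by
    intro x r
    rw [hc1']
    push_cast
    ring
  have hd1 : ∀ x y : ℝ, dist (c1 + ω * ((x : ℂ) + y * Complex.I)) c1 =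
      Real.sqrt (x ^ 2 + y ^ 2) := by
    intro x y
    rw [dist_eq_norm, add_sub_cancel_left, norm_w ω hω1]
  have hd2 : ∀ x y : ℝ, dist (c1 + ω * ((x : ℂ) + y * Complex.I)) c2 =
      Real.sqrt ((x - d) ^ 2 + y ^ 2) := by
    intro x y
    rw [dist_eq_norm, hc2, show c1 + ω * ((x:ℂ) + y * Complex.I) - (c1 + ω * ((d : ℝ) : ℂ)) =
        ω * (((x - d : ℝ) : ℂ) + y * Complex.I) by push_cast; ring, norm_w ω hω1]
  have hR : (∫ r in δ..(2 * δ), ∫ x in δ..(d - δ),
      ‖fderiv ℝ u (c1' + ω * (x + r * Complex.I))‖ ^ 2) ≤ E := by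
    rw [hE]
    apply rect_enH hu hfin c1' ω hω1 (by linarith) (by linarith) hMm
    intro x hx y hy
    rw [hpt]
    have hy' : 0 < y - δ := by linarith [hy.1]
    constructor
    · rw [hM]
      constructor
      · rw [hd1]
        apply Real.lt_sqrt_of_sq_lt
        have := pow_lt_pow_left₀ hx.1 hδ.le two_ne_zero
        linarith [sq_nonneg (y - δ)]
      · rw [hd2]
        apply Real.lt_sqrt_of_sq_lt
        have h8 : 0 < (y - δ) ^ 2 := by positivity
        have h9 := pow_le_pow_left₀ hδ.le (show δ ≤ d - x by linarith [hx.2]) 2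
        rw [show (x - d) ^ 2 = (d - x) ^ 2 by ring]
        linarith
    · rw [w_im c1 c2 ω hd0 hc2]
      have hx0 : 0 < x := by linarith [hx.1]
      have hxd : x / d < 1 := by
        rw [div_lt_one hd0]
        linarith [hx.2]
      have hxd0 : 0 < x / d := by positivity
      have g1 : 0 ≤ (1 - x / d) * c1.im := mul_nonneg (by linarith) h1
      have g2 : 0 ≤ x / d * c2.im := mul_nonneg hxd0.le h2
      have g3 : 0 ≤ (y - δ) * ω.re := mul_nonneg hy'.le hωre
      rcases hωre.lt_or_eq with h3 | h3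
      · have : 0 < (y - δ) * ω.re := mul_pos hy' h3
        linarith
      · -- the segment is vertical
        rcases h1.lt_or_eq with h4 | h4
        · have : 0 < (1 - x / d) * c1.im := mul_pos (by linarith) h4
          linarith
        · rcases h2.lt_or_eq with h5 | h5
          · have : 0 < x / d * c2.im := mul_pos hxd0 h5
            linarith
          · exfalso
            have h6 : ω.im = 0 := by
              rw [hω, Complex.div_ofReal_im, Complex.sub_im, ← h4, ← h5]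
              simp
            have h7 : ω = 0 := Complex.ext (by rw [← h3]; rfl) (by rw [h6]; rfl)
            rw [h7, norm_zero] at hω1
            exact zero_ne_one hω1
  have hRc : Continuous (fun r : ℝ => ∫ x in δ..(d - δ),
      ‖fderiv ℝ u (c1' + ω * (x + r * Complex.I))‖ ^ 2) := by
    apply intervalIntegral.continuous_parametric_intervalIntegral_of_continuous'
      (f := fun r x : ℝ => ‖fderiv ℝ u (c1' + ω * (x + r * Complex.I))‖ ^ 2)
    exact ((dens_cont hu).comp (by fun_prop)).pow 2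
  obtain ⟨R, hRR⟩ : ∃ R : ℝ → ℝ, R = fun r : ℝ => ∫ x in δ..(d - δ),
      ‖fderiv ℝ u (c1' + ω * ((x:ℂ) + (r:ℂ) * Complex.I))‖ ^ 2 := ⟨_, rfl⟩
  have hR' : (∫ r in δ..(2 * δ), R r) ≤ E := by rw [hRR]; exact hR
  rw [← hRR] at hRc
  have hR0 : ∀ r, 0 ≤ R r := fun r => by
    rw [hRR]
    exact intervalIntegral.integral_nonneg (by linarith) (fun x _ => sq_nonneg _)
  -- the estimate for one radius
  have key : ∀ r ∈ Ioc δ (2 * δ), ENNReal.ofReal ((J1 - J2) ^ 2) ≤
      3 * (((ENNReal.ofReal (E / 2) + ENNReal.ofReal (8 * Real.pi * δ) *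
        (ENNReal.ofReal r * AE u c1 r)) + (ENNReal.ofReal (E / 2) +
        ENNReal.ofReal (8 * Real.pi * δ) * (ENNReal.ofReal r * AE u c2 r))) +
        ENNReal.ofReal (d * R r)) := by
    intro r hr
    have hr0 : 0 < r := hδ.trans hr.1
    obtain ⟨y, hy⟩ : ∃ y, y = r - δ := ⟨_, rfl⟩
    have hy0 : 0 < y := by rw [hy]; linarith [hr.1]
    have hyδ : y ≤ δ := by rw [hy]; linarith [hr.2]
    obtain ⟨x1, hx1⟩ : ∃ x1, x1 = Real.sqrt (r ^ 2 - y ^ 2) := ⟨_, rfl⟩
    have hryδ : δ ^ 2 ≤ r ^ 2 - y ^ 2 := by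
      have g1 := mul_lt_mul_of_pos_left hr.1 hδ
      have g2 : r ^ 2 - y ^ 2 = 2 * (δ * r) - δ ^ 2 := by rw [hy]; ring
      rw [g2]
      linarith [sq δ]
    have hry : 0 ≤ r ^ 2 - y ^ 2 := (sq_nonneg δ).trans hryδ
    have hx1s : x1 ^ 2 = r ^ 2 - y ^ 2 := by rw [hx1, Real.sq_sqrt hry]
    have hx1δ : δ ≤ x1 := by
      rw [hx1]
      exact Real.le_sqrt_of_sq_le hryδ
    have hx1r : x1 ≤ 2 * δ := by
      have : x1 ^ 2 ≤ (2 * δ) ^ 2 := by
        rw [hx1s]
        have := pow_le_pow_left₀ hr0.le hr.2 2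
        linarith [sq_nonneg y]
      exact (abs_le_of_sq_le_sq' this (by positivity)).2
    obtain ⟨p, hp⟩ : ∃ p : ℂ, p = c1 + ω * ((x1 : ℂ) + y * Complex.I) := ⟨_, rfl⟩
    obtain ⟨q, hq⟩ : ∃ q : ℂ, q = c1 + ω * (((d - x1 : ℝ) : ℂ) + y * Complex.I) := ⟨_, rfl⟩
    have hpd : dist p c1 = r := by
      rw [hp, hd1, show x1 ^ 2 + y ^ 2 = r ^ 2 by linarith, Real.sqrt_sq hr0.le]
    have hqd : dist q c2 = r := by
      rw [hq, hd2, show d - x1 - d = -x1 by ring, neg_sq,
        show x1 ^ 2 + y ^ 2 = r ^ 2 by linarith, Real.sqrt_sq hr0.le]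
    have him : ∀ x : ℝ, 0 ≤ x → x ≤ d → 0 ≤ (c1 + ω * ((x : ℂ) + y * Complex.I)).im := by
      intro x hx hxd
      rw [w_im c1 c2 ω hd0 hc2]
      have g1 : x / d ≤ 1 := by rw [div_le_one hd0]; exact hxd
      have g2 : 0 ≤ x / d := by positivity
      have g3 : 0 ≤ (1 - x / d) * c1.im := mul_nonneg (by linarith) h1
      have g4 : 0 ≤ x / d * c2.im := mul_nonneg g2 h2
      have g5 : 0 ≤ y * ω.re := mul_nonneg hy0.le hωre
      linarith
    have hpi : 0 ≤ p.im := by rw [hp]; exact him x1 (by linarith) (by linarith)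
    have hqi : 0 ≤ q.im := by rw [hq]; exact him (d - x1) (by linarith) (by linarith)
    have b1 := handle_arc hu hfin hδ H1 hA1 hr.1 hr.2 hpd hpi
    have b2 := handle_arc hu hfin hδ H2 hA2 hr.1 hr.2 hqd hqi
    have b3 : (u q - u p) ^ 2 ≤ d * R r := by
      have g1 := seg_osc hu c1 ω hω1 (a := x1) (b := d - x1) (by linarith) y
      rw [← hp, ← hq] at g1
      refine g1.trans ?_
      have g2 : ∫ x in x1..(d - x1), ‖fderiv ℝ u (c1 + ω * (x + y * Complex.I))‖ ^ 2 ≤ R r := by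
        rw [hRR]
        have e : (fun x : ℝ => ‖fderiv ℝ u (c1' + ω * ((x : ℂ) + (r : ℂ) * Complex.I))‖ ^ 2) =
            fun x : ℝ => ‖fderiv ℝ u (c1 + ω * ((x : ℂ) + (y : ℂ) * Complex.I))‖ ^ 2 := by
          funext x
          rw [hpt, ← hy]
        simp only [e]
        apply intervalIntegral.integral_mono_interval hx1δ (by linarith) (by linarith)
          (Filter.Eventually.of_forall fun _ => sq_nonneg _)
        apply Continuous.intervalIntegrable
        exact ((dens_cont hu).comp (by fun_prop)).pow 2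
      exact mul_le_mul (by linarith) g2 (intervalIntegral.integral_nonneg (by linarith)
        (fun x _ => sq_nonneg _)) hd0.le
    have three : (J1 - J2) ^ 2 ≤ 3 * (((J1 - u p) ^ 2 + (J2 - u q) ^ 2) + (u q - u p) ^ 2) := by
      have g1 := sq3 (J1 - u p) (-(u q - u p)) (-(J2 - u q))
      rw [neg_sq, neg_sq, show J1 - u p + -(u q - u p) + -(J2 - u q) = J1 - J2 by ring] at g1
      exact g1
    calc ENNReal.ofReal ((J1 - J2) ^ 2)
        ≤ ENNReal.ofReal (3 * (((J1 - u p) ^ 2 + (J2 - u q) ^ 2) + (u q - u p) ^ 2)) :=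
          ENNReal.ofReal_le_ofReal three
      _ = 3 * ((ENNReal.ofReal ((J1 - u p) ^ 2) + ENNReal.ofReal ((J2 - u q) ^ 2)) +
            ENNReal.ofReal ((u q - u p) ^ 2)) := by
          rw [ENNReal.ofReal_mul (by norm_num), ENNReal.ofReal_add (by positivity) (by positivity),
            ENNReal.ofReal_add (by positivity) (by positivity)]
          norm_num
      _ ≤ _ := by
          refine mul_le_mul_right ?_ _
          exact add_le_add (add_le_add b1 b2) (ENNReal.ofReal_le_ofReal b3)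
  -- integration
  have hint : ENNReal.ofReal (δ * (J1 - J2) ^ 2) ≤
      ENNReal.ofReal (3 * ((δ * (E / 2) + 8 * Real.pi * δ * E) +
        (δ * (E / 2) + 8 * Real.pi * δ * E) + d * E)) := by
    have hmA1 := AE_meas hu c1
    have hmA2 := AE_meas hu c2
    have hvol : volume (Ioc δ (2 * δ)) = ENNReal.ofReal δ := by
      rw [Real.volume_Ioc]
      congr 1
      ring
    have hpart : ∀ c, Measurable (AE u c) →
        ∫⁻ r in Ioc δ (2 * δ), ENNReal.ofReal r * AE u c r ≤ ENNReal.ofReal E →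
        ∫⁻ r in Ioc δ (2 * δ), (ENNReal.ofReal (E / 2) + ENNReal.ofReal (8 * Real.pi * δ) *
          (ENNReal.ofReal r * AE u c r)) ≤
        ENNReal.ofReal (δ * (E / 2) + 8 * Real.pi * δ * E) := by
      intro c hm hc
      have hmm : Measurable (fun r => ENNReal.ofReal r * AE u c r) :=
        ENNReal.measurable_ofReal.mul hm
      rw [lintegral_add_left measurable_const, setLIntegral_const, hvol,
        lintegral_const_mul (f := fun r => ENNReal.ofReal r * AE u c r) _ hmm,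
        ENNReal.ofReal_add (by positivity)
        (by positivity), ENNReal.ofReal_mul (p := 8 * Real.pi * δ) (by positivity),
        ENNReal.ofReal_mul (p := δ) hδ.le, mul_comm (ENNReal.ofReal (E / 2))]
      exact add_le_add_right (mul_le_mul_right hc _) _
    have hRint : ∫⁻ r in Ioc δ (2 * δ), ENNReal.ofReal (d * R r) ≤ ENNReal.ofReal (d * E) := by
      rw [← ofReal_integral_eq_lintegral_ofReal]
      · rw [← intervalIntegral.integral_of_le (by linarith), intervalIntegral.integral_const_mul]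
        exact ENNReal.ofReal_le_ofReal (mul_le_mul_of_nonneg_left hR' hd0.le)
      · exact ((continuous_const.mul hRc).integrableOn_Icc (a := δ) (b := 2 * δ)).mono_set
          Ioc_subset_Icc_self
      · exact Filter.Eventually.of_forall fun r => mul_nonneg hd0.le (hR0 r)
    have hm1 : ∀ c, Measurable (AE u c) → Measurable (fun r => ENNReal.ofReal (E / 2) +
        ENNReal.ofReal (8 * Real.pi * δ) * (ENNReal.ofReal r * AE u c r)) := fun c hm =>
      measurable_const.add (measurable_const.mul (ENNReal.measurable_ofReal.mul hm))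
    calc ENNReal.ofReal (δ * (J1 - J2) ^ 2)
        = ∫⁻ r in Ioc δ (2 * δ), ENNReal.ofReal ((J1 - J2) ^ 2) := by
          rw [setLIntegral_const, hvol, mul_comm, ENNReal.ofReal_mul (sq_nonneg _)]
      _ ≤ _ := setLIntegral_mono' measurableSet_Ioc key
      _ = 3 * ((∫⁻ r in Ioc δ (2 * δ), (ENNReal.ofReal (E / 2) +
              ENNReal.ofReal (8 * Real.pi * δ) * (ENNReal.ofReal r * AE u c1 r))) +
            (∫⁻ r in Ioc δ (2 * δ), (ENNReal.ofReal (E / 2) +
              ENNReal.ofReal (8 * Real.pi * δ) * (ENNReal.ofReal r * AE u c2 r))) +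
            ∫⁻ r in Ioc δ (2 * δ), ENNReal.ofReal (d * R r)) := by
          have hm2 : Measurable (fun r => (ENNReal.ofReal (E / 2) +
              ENNReal.ofReal (8 * Real.pi * δ) * (ENNReal.ofReal r * AE u c1 r)) +
              (ENNReal.ofReal (E / 2) +
              ENNReal.ofReal (8 * Real.pi * δ) * (ENNReal.ofReal r * AE u c2 r))) :=
            (hm1 c1 hmA1).add (hm1 c2 hmA2)
          rw [lintegral_const_mul' _ _ (by norm_num), lintegral_add_left hm2,
            lintegral_add_left (hm1 c1 hmA1)]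
      _ ≤ 3 * (ENNReal.ofReal (δ * (E / 2) + 8 * Real.pi * δ * E) +
            ENNReal.ofReal (δ * (E / 2) + 8 * Real.pi * δ * E) + ENNReal.ofReal (d * E)) := by
          refine mul_le_mul_right ?_ _
          exact add_le_add (add_le_add (hpart c1 hmA1 (hJ c1 (hA1 _ le_rfl)))
            (hpart c2 hmA2 (hJ c2 (hA2 _ le_rfl)))) hRint
      _ = _ := by
          have g1 : 0 ≤ δ * (E / 2) + 8 * Real.pi * δ * E := by positivity
          have g2 : 0 ≤ d * E := by positivity
          rw [← ENNReal.ofReal_add g1 g1, ← ENNReal.ofReal_add (add_nonneg g1 g1) g2,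
            ENNReal.ofReal_mul (p := 3) (by norm_num), ENNReal.ofReal_ofNat]
  have hfinal := (ENNReal.ofReal_le_ofReal_iff (by positivity)).1 hint
  have h5 := Real.pi_lt_d2
  have h6 : d * E ≤ 600 * δ * E := mul_le_mul_of_nonneg_right hup hE0
  have h7 : δ * (J1 - J2) ^ 2 ≤ δ * (2000 * E) := by
    have h8 : δ * E * Real.pi ≤ δ * E * 3.15 := mul_le_mul_of_nonneg_left h5.le (by positivity)
    have h9 : 0 ≤ δ * E := by positivity
    linarith
  exact le_of_mul_le_mul_left h7 hδ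

theorem en2 : S_EN2 := by
  refine ⟨2000, by norm_num, fun u c1 c2 δ J1 J2 hu hfin hδ h1 h2 hlo hup H1 H2 => ?_⟩
  rcases le_total c1.re c2.re with h | h
  · exact en2' hu hfin hδ h1 h2 hlo hup H1 H2 h
  · rw [dist_comm] at hlo hup
    have h3 := en2' hu hfin hδ h2 h1 hlo hup H2 H1 h
    rw [show (J1 - J2) ^ 2 = (J2 - J1) ^ 2 by ring]
    refine h3.trans (le_of_eq ?_)
    congr 2
    ext z
    exact and_comm

end Pool.Agent.Y674.QH
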